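import Pool.Agent.Lib.MP_741d1b_nt_all.FMain2

/-!
# Below the exponent 1/3 for all finite sets of integers (MP_741d1b_nt, Q1)

For all large `n` and every set `A` of `n` integers, some dilate of `A` modulo one has at most
`n ^ (1/3 - 1/1600000)` points in every arc of length `1 / n`.
-/

set_option autoImplicit false

namespace Pool.Agent.Results.MP_741d1b_nt.AllSets

/-- There is `N` such that for all `n ≥ N` and every set `A` of `n` integers there is a real `θ`
such that every arc of length `1 / n` of the circle contains at most `n ^ (1/3 - 1/1600000)` of the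
points `θ a` modulo one, `a ∈ A`. -/
theorem result :
    ∃ N : ℕ, ∀ n : ℕ, N ≤ n → ∀ A : Finset ℤ, A.card = n →
      ∃ θ : ℝ, ∀ x : ℝ,
        (({a : ℤ | a ∈ A ∧ ∃ k : ℤ, x ≤ θ * (a : ℝ) - (k : ℝ) ∧
            θ * (a : ℝ) - (k : ℝ) ≤ x + 1 / (n : ℝ)}.ncard : ℕ) : ℝ) ≤
          (n : ℝ) ^ ((1 : ℝ) / 3 - 1 / 1600000) :=
  Pool.Agent.MP_741d1b.All.all_sets2

end Pool.Agent.Results.MP_741d1b_nt.AllSets
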