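import Pool.Agent.Lib.KAK.Main

/-!
# Dilates of integer sets and Kakeya sets (MP_741d1b_nt, Q1)

Sets with long arithmetic progressions of all differences have clustered dilates. Unconditionally
this gives, for all large `n`, sets of `n` integers all of whose dilates have an arc of length
`1 / n` with `exp (c log n / log log n)` points. Applied to slices of Kakeya sets it shows that a
positive answer to Q1 implies the Minkowski form of the Kakeya conjecture in all dimensions.
-/

set_option autoImplicit false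

namespace Pool.Agent.Results.MP_741d1b_nt.KakeyaBarrier

open Pool.Agent.MP_741d1b.KAK

/-- (1) For all large `n` there is a set `A` of `n` integers such that for each real `θ` some arc of
length `1 / n` contains at least `exp (c log n / log log n)` of the points `θ a` modulo one.
(2) If Q1 holds with the exponent `c` (`Dilates c`), then each bounded set `E` in dimension `d ≥ 2`
with a unit segment in every direction meets at least `C δ ^ (-(d - c (d ^ 2 - 1) / (1 + c d)))`
cells of side `δ`, for all small `δ`. (3) If Q1 holds, `E` meets at least `δ ^ (-(d - ε))` cells,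
for all small `δ`, for each `ε > 0`. -/
theorem result :
    (∃ c : ℝ, 0 < c ∧ ∃ N : ℕ, ∀ n : ℕ, N ≤ n →
      ∃ A : Finset ℤ, A.card = n ∧ ∀ θ : ℝ, ∃ x : ℝ,
        Real.exp (c * (Real.log n / Real.log (Real.log n))) ≤ (arcCount A n θ x : ℝ)) ∧
    (∀ c : ℝ, 0 < c → Dilates c → ∀ d : ℕ, 2 ≤ d → ∀ E : Set (Fin d → ℝ), IsKakeya E →
      Bornology.IsBounded E → ∃ C : ℝ, 0 < C ∧ ∃ δ₀ : ℝ, 0 < δ₀ ∧ ∀ δ : ℝ, 0 < δ → δ < δ₀ →
        C * δ ^ (-((d : ℝ) - c * ((d : ℝ) ^ 2 - 1) / (1 + c * d))) ≤ ((cells E δ).ncard : ℝ)) ∧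
    ((∀ c : ℝ, 0 < c → Dilates c) → ∀ d : ℕ, 2 ≤ d → ∀ E : Set (Fin d → ℝ), IsKakeya E →
      Bornology.IsBounded E → ∀ ε : ℝ, 0 < ε → ∃ δ₀ : ℝ, 0 < δ₀ ∧ ∀ δ : ℝ, 0 < δ → δ < δ₀ →
        δ ^ (-((d : ℝ) - ε)) ≤ ((cells E δ).ncard : ℝ)) :=
  ⟨lower_bound, fun _ hc hD _ hd _ hE hb => kakeya_bound hc hD hd hE hb,
    fun hQ _ hd _ hE hb _ hε => kakeya_full hQ hd hE hb hε⟩

end Pool.Agent.Results.MP_741d1b_nt.KakeyaBarrier
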