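import Pool.Agent.Lib.MP_741d1b_nt_h87.T3Final

/-!
# Below the exponent 1/3 for all polynomially bounded sets (MP_741d1b_nt, Q1)

For every `C`, all large `n` and every set `A` of `n` integers in `[-n ^ C, n ^ C]`, some dilate of
`A` modulo one has at most `n ^ (1/3 - 1/200000)` points in every arc of length `1 / n`.
-/

set_option autoImplicit false

namespace Pool.Agent.Results.MP_741d1b_nt.PolynomiallyBounded

/-- For every real `C` there is `N` such that for all `n ≥ N` and every set `A` of `n` integers of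
absolute value at most `n ^ C` there is a real `θ` such that every arc of length `1 / n` of the
circle contains at most `n ^ (1/3 - 1/200000)` of the points `θ a` modulo one, `a ∈ A`. -/
theorem result :
    ∀ C : ℝ, ∃ N : ℕ, ∀ n : ℕ, N ≤ n → ∀ A : Finset ℤ, A.card = n →
      (∀ a ∈ A, |(a : ℝ)| ≤ (n : ℝ) ^ C) →
      ∃ θ : ℝ, ∀ x : ℝ,
        (({a : ℤ | a ∈ A ∧ ∃ k : ℤ, x ≤ θ * (a : ℝ) - (k : ℝ) ∧
            θ * (a : ℝ) - (k : ℝ) ≤ x + 1 / (n : ℝ)}.ncard : ℕ) : ℝ) ≤
          (n : ℝ) ^ ((1 : ℝ) / 3 - 1 / 200000) :=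
  Pool.Agent.MP_741d1b.H87.polynomially_bounded

end Pool.Agent.Results.MP_741d1b_nt.PolynomiallyBounded
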