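import Pool.Agent.Lib.MP_741d1b_nt_h87.Main

/-!
# Dilates of sets covered by few sets with a small difference set (MP_741d1b_nt, Q1)

If a set `A` of `n` integers is covered by at most `n ^ η` sets `B` with `|B - B| ≤ n ^ (1 + τ)`,
then some dilate of `A` modulo one has at most `n ^ c` points in every arc of length `1 / n`, for
every `c > max (1/4, τ/2)`.
-/

set_option autoImplicit false

open scoped Pointwise

namespace Pool.Agent.Results.MP_741d1b_nt.SmallDifferenceSets

/-- For all real `τ`, `c` with `c > τ / 2` and `c > 1 / 4` there are `η > 0` and `N` such that for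
all `n ≥ N` and every set `A` of `n` integers which is covered by a family `F` of at most `n ^ η`
finite sets `B` of integers with `|B - B| ≤ n ^ (1 + τ)`, there is a real `θ` such that every arc of
length `1 / n` of the circle contains at most `n ^ c` of the points `θ a` modulo one, `a ∈ A`. -/
theorem result :
    ∀ τ c : ℝ, τ / 2 < c → 1 / 4 < c →
      ∃ η : ℝ, 0 < η ∧ ∃ N : ℕ, ∀ n : ℕ, N ≤ n → ∀ A : Finset ℤ, A.card = n →
        ∀ F : Finset (Finset ℤ), (F.card : ℝ) ≤ (n : ℝ) ^ η → (∀ a ∈ A, ∃ B ∈ F, a ∈ B) →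
        (∀ B ∈ F, ((B - B).card : ℝ) ≤ (n : ℝ) ^ (1 + τ)) →
        ∃ θ : ℝ, ∀ x : ℝ,
          (({a : ℤ | a ∈ A ∧ ∃ k : ℤ, x ≤ θ * (a : ℝ) - (k : ℝ) ∧
              θ * (a : ℝ) - (k : ℝ) ≤ x + 1 / (n : ℝ)}.ncard : ℕ) : ℝ) ≤ (n : ℝ) ^ c :=
  fun τ c hτ hc => Pool.Agent.MP_741d1b.H87.small_difference_sets τ c hτ hc

end Pool.Agent.Results.MP_741d1b_nt.SmallDifferenceSets
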